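import Mathlib
import Pool.Agent.H519R3.AC.CollMain
import Pool.Agent.W415.CE.Phases

set_option autoImplicit false

/-!
# General collisions in every characteristic, from one reachable ratio
-/

namespace Pool.Agent.W415.CE

open Polynomial Pool.Agent.H932R2 Pool.Agent.H932R3 Pool.Agent.H519R3.AC

universe u

/-- Emptiness below and independence above the critical degree, from one reachable ratio. -/
theorem coll_core1 {K : Type u} [Field K] [Infinite K] {r : ℕ} (hr : 5 ≤ r) {σ x : ℝ}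
    (hσ : Pool.Agent.H932R5.Up 1 σ) (hσr : σ ≤ r) (hσx : (r : ℝ) - σ ≤ x) (hx0 : 0 < x)
    (hx1 : x ≤ 1) {m : ℕ} (hm : 0 < m) : ∃ F : MvPolynomial (Fin (r + 1)) K, F ≠ 0 ∧
      ∀ (c : K) (a : Fin r → K), MvPolynomial.eval (Fin.cons c a : Fin (r + 1) → K) F ≠ 0 →
        ∀ d : ℕ,
          ((1 + x / r) * d < m * Real.sqrt r → NoForm (jetIdeal m c a) d ∧ JetDim r m c a d) ∧
          (Real.sqrt r * (m + 1) ≤ (1 - x / r) * d → JetDim r m c a d) := by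
  have hr0 : 0 < r := by omega
  have hrR : (0 : ℝ) < r := by exact_mod_cast hr0
  have hr1 : (5 : ℝ) ≤ r := by exact_mod_cast hr
  have hmR : (1 : ℝ) ≤ m := by exact_mod_cast hm
  have hs0 : 0 < Real.sqrt r := Real.sqrt_pos.2 hrR
  have hss : Real.sqrt r * Real.sqrt r = r := Real.mul_self_sqrt hrR.le
  have hss' : Real.sqrt r ^ 2 = r := Real.sq_sqrt hrR.le
  have hL : Real.sqrt r ^ (1 + 1) = (r : ℝ) := by
    rw [pow_succ, pow_one, hss]
  have hL1 : 1 ≤ Real.sqrt r := by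
    rw [Real.one_le_sqrt]
    linarith
  have hσ0 : 0 < σ := by linarith
  obtain ⟨y, hy⟩ : ∃ y : ℝ, y = x / r := ⟨_, rfl⟩
  have hy0 : 0 < y := by rw [hy]; positivity
  have hyr : y * r = x := by rw [hy]; field_simp
  have hy1 : y ≤ 1 / 5 := by
    have h1 : y * 5 ≤ y * r := mul_le_mul_of_nonneg_left hr1 hy0.le
    linarith
  obtain ⟨μ, hμ⟩ : ∃ μ : ℝ, μ = 1 + y := ⟨_, rfl⟩
  obtain ⟨ν, hν⟩ : ∃ ν : ℝ, ν = 1 - y := ⟨_, rfl⟩
  have hμ1 : 1 ≤ μ := by rw [hμ]; linarith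
  have hν1 : ν ≤ 1 := by rw [hν]; linarith
  have hν0 : 0 < ν := by rw [hν]; linarith
  have hrat : ∀ t : ℕ, t < 1 → ∃ σ, Pool.Agent.H932R5.Up (Real.sqrt r ^ (1 - 1 - t)) σ ∧
      σ ≤ Real.sqrt r ^ (1 + 1 - t) ∧ Real.sqrt (Real.sqrt r ^ (1 + 1 - t) / σ) ≤ μ := by
    intro t ht
    have : t = 0 := by omega
    subst this
    refine ⟨σ, by simpa using hσ, by simpa [hL] using hσr, ?_⟩
    show Real.sqrt (Real.sqrt r ^ (1 + 1) / σ) ≤ μ
    rw [hL]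
    refine Real.sqrt_le_iff.2 ⟨by linarith, ?_⟩
    rw [div_le_iff₀ hσ0]
    have h1 : (1 + 2 * y) * (r - x) ≤ μ ^ 2 * σ := by
      have h2 : 1 + 2 * y ≤ μ ^ 2 := by
        rw [hμ]
        nlinarith
      exact mul_le_mul h2 (by linarith) (by linarith) (by positivity)
    refine le_trans ?_ h1
    nlinarith
  have hrat' : ∀ t : ℕ, t < 1 → ∃ σ, Pool.Agent.H932R5.Up (Real.sqrt r ^ (1 - 1 - t)) σ ∧
      σ ≤ Real.sqrt r ^ (1 + 1 - t) ∧ ν ≤ Real.sqrt (σ / Real.sqrt r ^ (1 + 1 - t)) := by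
    intro t ht
    have : t = 0 := by omega
    subst this
    refine ⟨σ, by simpa using hσ, by simpa [hL] using hσr, ?_⟩
    show ν ≤ Real.sqrt (σ / Real.sqrt r ^ (1 + 1))
    rw [hL]
    apply Real.le_sqrt_of_sq_le
    rw [le_div_iff₀ hrR]
    have h1 : ν * r ≤ σ := by
      rw [hν]
      linarith
    have h2 : ν ^ 2 * r ≤ ν * r := by
      have h3 : ν ^ 2 ≤ ν := by nlinarith
      exact mul_le_mul_of_nonneg_right h3 hrR.le
    linarith
  rw [← hy, ← hμ, ← hν]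
  -- the critical condition
  obtain ⟨P, hP⟩ : ∃ P : ℕ → Prop, ∀ d, P d ↔ μ ^ 1 * Real.sqrt r ^ 1 * d < ((r * m : ℕ) : ℝ) :=
    ⟨fun d => μ ^ 1 * Real.sqrt r ^ 1 * d < ((r * m : ℕ) : ℝ), fun d => Iff.rfl⟩
  have hrm : (0 : ℝ) < ((r * m : ℕ) : ℝ) := by
    push_cast
    positivity
  have hP0 : P 0 := by
    rw [hP, Nat.cast_zero, mul_zero]
    exact hrm
  have hPlt : ∀ d, P d → d ≤ r * m := by
    intro d hd
    rw [hP, pow_one, pow_one] at hd
    have h1 : (1 : ℝ) ≤ μ * Real.sqrt r := one_le_mul_of_one_le_of_one_le hμ1 hL1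
    have h2 : (d : ℝ) ≤ μ * Real.sqrt r * d := le_mul_of_one_le_left (Nat.cast_nonneg d) h1
    have h3 : (d : ℝ) < ((r * m : ℕ) : ℝ) := lt_of_le_of_lt h2 hd
    exact (by exact_mod_cast h3 : d < r * m).le
  classical
  obtain ⟨e, he, hemax⟩ : ∃ e, P e ∧ ∀ d, P d → d ≤ e :=
    ⟨Nat.findGreatest P (r * m), Nat.findGreatest_spec (Nat.zero_le _) hP0,
      fun d hd => Nat.le_findGreatest (hPlt d hd) hd⟩
  obtain ⟨F1, hF1, hF1'⟩ : ∃ F : MvPolynomial (Fin (r + 1)) K, F ≠ 0 ∧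
      ∀ (c : K) (a : Fin r → K), MvPolynomial.eval (Fin.cons c a : Fin (r + 1) → K) F ≠ 0 →
        RkI (jetIdeal m c a) (Tset e) (Tfin e).card := by
    obtain ⟨c1, g, hR⟩ := rkI_of_FFull (K := K)
      (full_main' (base_coll r m) hrat hL1 hμ1 hL ((hP e).1 he))
    exact hop_cIdeal hr0 hR
  -- the upper side
  obtain ⟨F2, hF2, hF2'⟩ : ∃ F : MvPolynomial (Fin (r + 1)) K, F ≠ 0 ∧
      ∀ (c : K) (a : Fin r → K), MvPolynomial.eval (Fin.cons c a : Fin (r + 1) → K) F ≠ 0 →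
        ∀ d : ℕ, Real.sqrt r * (m + 1) ≤ ν * d → JetDim r m c a d := by
    have hex : ∃ f : ℕ, Real.sqrt r * (m + 1) ≤ ν * f := by
      obtain ⟨f, hf⟩ := exists_nat_ge (Real.sqrt r * (m + 1) / ν)
      refine ⟨f, ?_⟩
      rw [div_le_iff₀ hν0] at hf
      linarith
    obtain ⟨f, hf, hfmin⟩ : ∃ f : ℕ, Real.sqrt r * (m + 1) ≤ ν * f ∧
        ∀ d : ℕ, Real.sqrt r * (m + 1) ≤ ν * d → f ≤ d :=
      ⟨Nat.find hex, Nat.find_spec hex, fun d hd => Nat.find_min' hex hd⟩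
    have h1 : FRk (collFam K r m) (Pool.Agent.H932R5.Td 1 f) (r * (m + 1).choose (1 + 1)) :=
      rk_main' (base_coll r m) hm hrat' hL1 hν0 hν1 hL (by
        rw [pow_one]
        push_cast
        exact hf)
    obtain ⟨c1, g, hR⟩ := rkI_of_FRk Td_Tset h1
    obtain ⟨F, hF, hF'⟩ := hop_cIdeal hr0 hR
    exact ⟨F, hF, fun c a hc d hd => jet_indep (hF' c a hc) d (hfmin d hd)⟩
  refine ⟨F1 * F2, mul_ne_zero hF1 hF2, fun c a hPe d => ?_⟩
  rw [map_mul] at hPe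
  have hR1 := hF1' c a (left_ne_zero_of_mul hPe)
  have hR2 := hF2' c a (right_ne_zero_of_mul hPe)
  refine ⟨fun hd => ?_, hR2 d⟩
  have hPd : P d := by
    rw [hP, pow_one, pow_one]
    have h1 := mul_lt_mul_of_pos_left hd hs0
    have h2 : Real.sqrt r * (m * Real.sqrt r) = r * m := by
      calc Real.sqrt r * (m * Real.sqrt r) = (Real.sqrt r * Real.sqrt r) * m := by ring
        _ = r * m := by rw [hss]
    push_cast
    calc μ * Real.sqrt r * d = Real.sqrt r * (μ * d) := by ring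
      _ < Real.sqrt r * (m * Real.sqrt r) := h1
      _ = r * m := h2
  exact ⟨(NoForm.of_rk hR1).mono (hemax d hPd), jet_full hR1 d (hemax d hPd)⟩

/-- Integrality: for small multiplicities the error disappears. -/
theorem coll_exact1 {r m d : ℕ} {x : ℝ} (hr : 5 ≤ r) (hx0 : 0 < x) (hx1 : x ≤ 1)
    (hm : 3 * x * (m : ℝ) ^ 2 ≤ 1) (h : (d : ℝ) < m * Real.sqrt r) :
    (1 + x / r) * d < m * Real.sqrt r := by
  have hrR : (5 : ℝ) ≤ r := by exact_mod_cast hr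
  have hrR0 : (0 : ℝ) < r := by linarith
  have hss : Real.sqrt r * Real.sqrt r = r := Real.mul_self_sqrt hrR0.le
  obtain ⟨y, hy⟩ : ∃ y : ℝ, y = x / r := ⟨_, rfl⟩
  rw [← hy]
  have hy0 : 0 < y := by rw [hy]; positivity
  have hyr : y * r = x := by rw [hy]; field_simp
  have hy1 : y ≤ 1 := by nlinarith
  have hm0 : (0 : ℝ) ≤ m := Nat.cast_nonneg m
  have hd0 : (0 : ℝ) ≤ d := Nat.cast_nonneg d
  have hs0 : 0 < Real.sqrt r := Real.sqrt_pos.2 hrR0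
  have hy3 : 3 * y * (r * (m : ℝ) ^ 2) ≤ 1 := by
    have : 3 * y * (r * (m : ℝ) ^ 2) = 3 * (y * r) * (m : ℝ) ^ 2 := by ring
    rw [this, hyr]
    exact hm
  have hsq : ((m : ℝ) * Real.sqrt r) ^ 2 = r * (m : ℝ) ^ 2 := by
    calc ((m : ℝ) * Real.sqrt r) ^ 2 = (Real.sqrt r * Real.sqrt r) * (m : ℝ) ^ 2 := by ring
      _ = _ := by rw [hss]
  have hint : (d : ℝ) ^ 2 ≤ r * (m : ℝ) ^ 2 - 1 := by
    have h1 := mul_self_lt_mul_self hd0 h
    have h2 : (m : ℝ) * Real.sqrt r * (m * Real.sqrt r) = r * (m : ℝ) ^ 2 := by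
      rw [← pow_two, hsq]
    rw [h2] at h1
    have h3 : d * d < r * m ^ 2 := by exact_mod_cast h1
    have h4 : d * d + 1 ≤ r * m ^ 2 := h3
    have h5 : ((d * d + 1 : ℕ) : ℝ) ≤ ((r * m ^ 2 : ℕ) : ℝ) := by exact_mod_cast h4
    push_cast at h5
    nlinarith
  refine lt_of_pow_lt_pow_left₀ 2 (by positivity) ?_
  rw [hsq, mul_pow]
  obtain ⟨Z, hZ⟩ : ∃ Z : ℝ, Z = r * (m : ℝ) ^ 2 := ⟨_, rfl⟩
  rw [← hZ] at hint hy3 ⊢
  have hZ0 : 0 ≤ Z := by rw [hZ]; positivity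
  have h3 : (1 + y) ^ 2 * (d : ℝ) ^ 2 ≤ (1 + y) ^ 2 * (Z - 1) :=
    mul_le_mul_of_nonneg_left hint (by positivity)
  have h4 : y * y * Z ≤ y * 1 * Z := by gcongr
  nlinarith

/-- The exponential precision of the reachable ratios. -/
def HUp : Prop := ∀ s0 u : ℝ, (2 : ℝ) ^ 1000 ≤ u → 1 ≤ s0 → s0 ^ 4 ≤ u ^ 3 →
  ∃ σ, Pool.Agent.H932R5.Up s0 σ ∧ σ ≤ u ∧ u - σ ≤ Real.exp (-u ^ (1 / 10 : ℝ))

/-- The conditions on the degree, for `r ≥ 2 ^ 1000`. -/
theorem coll_winE (hup : HUp) {K : Type u} [Field K] [Infinite K] {r : ℕ} (hr : 2 ^ 1000 ≤ r)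
    {m : ℕ} (hm : 0 < m) : ∃ F : MvPolynomial (Fin (r + 1)) K, F ≠ 0 ∧
      ∀ (c : K) (a : Fin r → K), MvPolynomial.eval (Fin.cons c a : Fin (r + 1) → K) F ≠ 0 →
        ∀ d : ℕ,
          (((d : ℝ) ≤ (1 - Real.exp (-(r : ℝ) ^ (1 / 10 : ℝ))) * (m * Real.sqrt r) ∨
            ((m : ℝ) ≤ Real.exp ((r : ℝ) ^ (1 / 10 : ℝ) / 3) ∧ (d : ℝ) < m * Real.sqrt r)) →
              NoForm (jetIdeal m c a) d ∧ JetDim r m c a d) ∧
          (Real.sqrt r * (m + 1) ≤ (1 - Real.exp (-(r : ℝ) ^ (1 / 10 : ℝ))) * d →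
            JetDim r m c a d) := by
  have hr8 : 2 ^ 3 ≤ r := (Nat.pow_le_pow_right (by norm_num) (by norm_num)).trans hr
  have hr5 : 5 ≤ r := by omega
  have hr0 : 0 < r := by omega
  have hrR : (0 : ℝ) < r := by exact_mod_cast hr0
  have hr1 : (1 : ℝ) ≤ r := by exact_mod_cast (show 1 ≤ r by omega)
  have hrB : (2 : ℝ) ^ 1000 ≤ r := by exact_mod_cast hr
  obtain ⟨σ, hσ, hσr, hσx⟩ := hup 1 r hrB le_rfl (by
    rw [one_pow]
    exact one_le_pow₀ hr1)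
  obtain ⟨z, hz⟩ : ∃ z : ℝ, z = (r : ℝ) ^ (1 / 10 : ℝ) := ⟨_, rfl⟩
  rw [← hz] at hσx ⊢
  have hz6 : 6 ≤ z := by
    have h1 : ((2 : ℝ) ^ 1000) ^ (1 / 10 : ℝ) ≤ z := by
      rw [hz]
      exact Real.rpow_le_rpow (by positivity) hrB (by norm_num)
    have h2 : ((2 : ℝ) ^ 1000) ^ (1 / 10 : ℝ) = 2 ^ 100 := by
      rw [← Real.rpow_natCast, ← Real.rpow_natCast, ← Real.rpow_mul (by norm_num)]
      norm_num
    rw [h2] at h1
    refine le_trans ?_ h1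
    norm_num
  obtain ⟨x, hx⟩ : ∃ x, x = Real.exp (-z) := ⟨_, rfl⟩
  rw [← hx] at hσx ⊢
  have hx0 : 0 < x := by rw [hx]; exact Real.exp_pos _
  have hx1 : x ≤ 1 := by
    rw [hx, Real.exp_le_one_iff]
    linarith
  have hs0 : 0 < Real.sqrt r := Real.sqrt_pos.2 hrR
  have hmR : (1 : ℝ) ≤ m := by exact_mod_cast hm
  have hxr : x / r ≤ x := div_le_self hx0.le hr1
  have hxr0 : 0 < x / r := by positivity
  obtain ⟨F, hF, hF'⟩ := coll_core1 (K := K) hr5 hσ hσr hσx hx0 hx1 hm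
  refine ⟨F, hF, fun c a hPe d => ?_⟩
  have hR := hF' c a hPe d
  constructor
  · rintro (hd | ⟨hd1, hd2⟩)
    · refine hR.1 ?_
      have h2 : (1 + x / r) * (d : ℝ) ≤ (1 + x) * d :=
        mul_le_mul_of_nonneg_right (by linarith) (Nat.cast_nonneg d)
      have h3 : (1 + x) * (d : ℝ) ≤ (1 + x) * ((1 - x) * (m * Real.sqrt r)) :=
        mul_le_mul_of_nonneg_left hd (by linarith)
      have h4 : (1 + x) * ((1 - x) * ((m : ℝ) * Real.sqrt r)) =
          m * Real.sqrt r - x * x * (m * Real.sqrt r) := by ring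
      have h5 : 0 < x * x * ((m : ℝ) * Real.sqrt r) := by positivity
      linarith
    · refine hR.1 (coll_exact1 hr5 hx0 hx1 ?_ hd2)
      have h1 : (m : ℝ) ^ 2 ≤ Real.exp (z / 3) ^ 2 :=
        pow_le_pow_left₀ (Nat.cast_nonneg m) hd1 2
      have h2 : Real.exp (z / 3) ^ 2 = Real.exp (2 * z / 3) := by
        rw [← Real.exp_nat_mul]
        congr 1
        push_cast
        ring
      have h3 : x * Real.exp (2 * z / 3) = Real.exp (-(z / 3)) := by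
        rw [hx, ← Real.exp_add]
        congr 1
        ring
      have h4 : Real.exp (-(z / 3)) ≤ 1 / 3 := by
        rw [Real.exp_neg, ← one_div]
        refine one_div_le_one_div_of_le (by norm_num) ?_
        have := Real.add_one_le_exp (z / 3)
        linarith
      rw [h2] at h1
      calc 3 * x * (m : ℝ) ^ 2 ≤ 3 * x * Real.exp (2 * z / 3) :=
            mul_le_mul_of_nonneg_left h1 (by positivity)
        _ = 3 * (x * Real.exp (2 * z / 3)) := by ring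
        _ = 3 * Real.exp (-(z / 3)) := by rw [h3]
        _ ≤ 1 := by linarith
  · intro hd
    refine hR.2 (hd.trans ?_)
    exact mul_le_mul_of_nonneg_right (by linarith) (Nat.cast_nonneg d)

end Pool.Agent.W415.CE
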