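import Mathlib
import Pool.Agent.W415.CE.Core

set_option autoImplicit false

/-!
# General collisions in every characteristic: both sides of the critical degree
-/

namespace Pool.Agent.W415.CE

open Polynomial Pool.Agent.H932R2 Pool.Agent.H932R3 Pool.Agent.H519R3.AC

universe u

/-- Integrality above the critical degree. -/
theorem coll_exact2 {r m d : ℕ} {x : ℝ} (hr : 5 ≤ r) (hx0 : 0 < x)
    (hm : 3 * x * ((m : ℝ) + 1) ^ 2 ≤ 1) (h : Real.sqrt r * (m + 1) < d) :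
    Real.sqrt r * (m + 1) ≤ (1 - x / r) * d := by
  have hrR : (5 : ℝ) ≤ r := by exact_mod_cast hr
  have hrR0 : (0 : ℝ) < r := by linarith
  have hss : Real.sqrt r * Real.sqrt r = r := Real.mul_self_sqrt hrR0.le
  obtain ⟨y, hy⟩ : ∃ y : ℝ, y = x / r := ⟨_, rfl⟩
  rw [← hy]
  have hy0 : 0 < y := by rw [hy]; positivity
  have hyr : y * r = x := by rw [hy]; field_simp
  have hm0 : (0 : ℝ) ≤ m := Nat.cast_nonneg m
  have hd0 : (0 : ℝ) ≤ d := Nat.cast_nonneg d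
  have hs0 : 0 < Real.sqrt r := Real.sqrt_pos.2 hrR0
  have hx3 : 3 * x ≤ 1 := by
    have h1 : 3 * x * 1 ≤ 3 * x * ((m : ℝ) + 1) ^ 2 := by
      refine mul_le_mul_of_nonneg_left ?_ (by positivity)
      exact one_le_pow₀ (by linarith)
    linarith
  have hy6 : y ≤ 1 / 15 := by
    have h1 : y * 5 ≤ y * r := mul_le_mul_of_nonneg_left hrR hy0.le
    linarith
  obtain ⟨Z, hZ⟩ : ∃ Z : ℝ, Z = r * ((m : ℝ) + 1) ^ 2 := ⟨_, rfl⟩
  have hsq : (Real.sqrt r * ((m : ℝ) + 1)) ^ 2 = Z := by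
    rw [hZ]
    calc (Real.sqrt r * ((m : ℝ) + 1)) ^ 2 = (Real.sqrt r * Real.sqrt r) * ((m : ℝ) + 1) ^ 2 := by
          ring
      _ = _ := by rw [hss]
  have hyZ : 3 * (y * Z) ≤ 1 := by
    have : 3 * (y * Z) = 3 * (y * r) * ((m : ℝ) + 1) ^ 2 := by rw [hZ]; ring
    rw [this, hyr]
    exact hm
  have hint : Z + 1 ≤ (d : ℝ) ^ 2 := by
    have h1 := mul_self_lt_mul_self (by positivity) h
    rw [← pow_two, hsq, hZ] at h1
    have h3 : r * (m + 1) ^ 2 < d * d := by exact_mod_cast h1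
    have h5 : ((r * (m + 1) ^ 2 + 1 : ℕ) : ℝ) ≤ ((d * d : ℕ) : ℝ) := by exact_mod_cast h3
    push_cast at h5
    rw [hZ]
    nlinarith
  refine le_of_sq_le_sq ?_ (mul_nonneg (by linarith) hd0)
  rw [hsq, mul_pow]
  have h1 : (1 - 2 * y) * (Z + 1) ≤ (1 - y) ^ 2 * (d : ℝ) ^ 2 :=
    mul_le_mul (by nlinarith) hint (by rw [hZ]; positivity) (by positivity)
  nlinarith

theorem coll_bothE (hup : HUp) {K : Type u} [Field K] [Infinite K] {r : ℕ} (hr : 2 ^ 1000 ≤ r)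
    {m : ℕ} (hm : 0 < m) : ∃ F : MvPolynomial (Fin (r + 1)) K, F ≠ 0 ∧
      ∀ (c : K) (a : Fin r → K), MvPolynomial.eval (Fin.cons c a : Fin (r + 1) → K) F ≠ 0 →
        ∀ d : ℕ,
          ((d : ℝ) ≤ (1 - Real.exp (-(r : ℝ) ^ (1 / 10 : ℝ))) * (m * Real.sqrt r) ∨
            Real.sqrt r * (m + 1) ≤ (1 - Real.exp (-(r : ℝ) ^ (1 / 10 : ℝ))) * d ∨
            ((m : ℝ) ≤ Real.exp ((r : ℝ) ^ (1 / 10 : ℝ) / 3) ∧
              ((d : ℝ) < m * Real.sqrt r ∨ Real.sqrt r * (m + 1) < d))) →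
              JetDim r m c a d := by
  have hr8 : 2 ^ 3 ≤ r := (Nat.pow_le_pow_right (by norm_num) (by norm_num)).trans hr
  have hr5 : 5 ≤ r := by omega
  have hr0 : 0 < r := by omega
  have hrR : (0 : ℝ) < r := by exact_mod_cast hr0
  have hr1 : (1 : ℝ) ≤ r := by exact_mod_cast (show 1 ≤ r by omega)
  have hrB : (2 : ℝ) ^ 1000 ≤ r := by exact_mod_cast hr
  obtain ⟨σ, hσ, hσr, hσx⟩ := hup 1 r hrB le_rfl (by
    rw [one_pow]
    exact one_le_pow₀ hr1)
  obtain ⟨z, hz⟩ : ∃ z : ℝ, z = (r : ℝ) ^ (1 / 10 : ℝ) := ⟨_, rfl⟩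
  rw [← hz] at hσx ⊢
  have hz36 : 36 ≤ z := by
    have h1 : ((2 : ℝ) ^ 1000) ^ (1 / 10 : ℝ) ≤ z := by
      rw [hz]
      exact Real.rpow_le_rpow (by positivity) hrB (by norm_num)
    have h2 : ((2 : ℝ) ^ 1000) ^ (1 / 10 : ℝ) = 2 ^ 100 := by
      rw [← Real.rpow_natCast, ← Real.rpow_natCast, ← Real.rpow_mul (by norm_num)]
      norm_num
    rw [h2] at h1
    refine le_trans ?_ h1
    norm_num
  obtain ⟨x, hx⟩ : ∃ x, x = Real.exp (-z) := ⟨_, rfl⟩
  rw [← hx] at hσx ⊢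
  have hx0 : 0 < x := by rw [hx]; exact Real.exp_pos _
  have hx1 : x ≤ 1 := by
    rw [hx, Real.exp_le_one_iff]
    linarith
  have hs0 : 0 < Real.sqrt r := Real.sqrt_pos.2 hrR
  have hmR : (1 : ℝ) ≤ m := by exact_mod_cast hm
  have hxr : x / r ≤ x := div_le_self hx0.le hr1
  have hxr0 : 0 < x / r := by positivity
  obtain ⟨F, hF, hF'⟩ := coll_core1 (K := K) hr5 hσ hσr hσx hx0 hx1 hm
  refine ⟨F, hF, fun c a hPe d => ?_⟩
  have hR := hF' c a hPe d
  rintro (hd | hd | ⟨hd1, hd2⟩)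
  · refine (hR.1 ?_).2
    have h2 : (1 + x / r) * (d : ℝ) ≤ (1 + x) * d :=
      mul_le_mul_of_nonneg_right (by linarith) (Nat.cast_nonneg d)
    have h3 : (1 + x) * (d : ℝ) ≤ (1 + x) * ((1 - x) * (m * Real.sqrt r)) :=
      mul_le_mul_of_nonneg_left hd (by linarith)
    have h4 : (1 + x) * ((1 - x) * ((m : ℝ) * Real.sqrt r)) =
        m * Real.sqrt r - x * x * (m * Real.sqrt r) := by ring
    have h5 : 0 < x * x * ((m : ℝ) * Real.sqrt r) := by positivity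
    linarith
  · refine hR.2 (hd.trans ?_)
    exact mul_le_mul_of_nonneg_right (by linarith) (Nat.cast_nonneg d)
  · have hm3 : 3 * x * ((m : ℝ) + 1) ^ 2 ≤ 1 := by
      have h0 : ((m : ℝ) + 1) ^ 2 ≤ 4 * (m : ℝ) ^ 2 := by nlinarith
      have h1 : (m : ℝ) ^ 2 ≤ Real.exp (z / 3) ^ 2 :=
        pow_le_pow_left₀ (Nat.cast_nonneg m) hd1 2
      have h2 : Real.exp (z / 3) ^ 2 = Real.exp (2 * z / 3) := by
        rw [← Real.exp_nat_mul]
        congr 1
        push_cast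
        ring
      have h3 : x * Real.exp (2 * z / 3) = Real.exp (-(z / 3)) := by
        rw [hx, ← Real.exp_add]
        congr 1
        ring
      have h4 : Real.exp (-(z / 3)) ≤ 1 / 12 := by
        rw [Real.exp_neg, ← one_div]
        refine one_div_le_one_div_of_le (by norm_num) ?_
        have := Real.add_one_le_exp (z / 3)
        linarith
      rw [h2] at h1
      calc 3 * x * ((m : ℝ) + 1) ^ 2 ≤ 3 * x * (4 * Real.exp (2 * z / 3)) :=
            mul_le_mul_of_nonneg_left (h0.trans (by linarith)) (by positivity)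
        _ = 12 * (x * Real.exp (2 * z / 3)) := by ring
        _ = 12 * Real.exp (-(z / 3)) := by rw [h3]
        _ ≤ 1 := by linarith
    rcases hd2 with hd2 | hd2
    · refine (hR.1 (coll_exact1 hr5 hx0 hx1 ?_ hd2)).2
      refine le_trans (mul_le_mul_of_nonneg_left ?_ (by positivity)) hm3
      exact pow_le_pow_left₀ (Nat.cast_nonneg m) (by linarith) 2
    · exact hR.2 (coll_exact2 hr5 hx0 hm3 hd2)

end Pool.Agent.W415.CE
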